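import Mathlib

/-! Low-rank approximation of framed matrices. -/

namespace Pool.Agent.H.MP_d82c50_lc

open Finset Module Matrix

variable {L I J S X Y : Type} [Fintype L] [DecidableEq L] [Fintype X] [Fintype Y]

theorem span_cols {B : Matrix X Y ℝ} (hr : B.rank ≤ Fintype.card L) (ρ : L → X) (γ : L → Y)
    (h : ∑ l', ∑ l, |B (ρ l') (γ l) - if l' = l then 1 else 0| < 1) (y : Y) :
    ∃ c : L → ℝ, ∀ x, B x y = ∑ l, c l * B x (γ l) := by
  have li : LinearIndependent ℝ fun l => B.col (γ l) := Fintype.linearIndependent_iff.2 fun c hc => by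
    have a : ∀ l', |c l'| ≤ ∑ l, |B (ρ l') (γ l) - if l' = l then 1 else 0| * ∑ l, |c l| := fun l' => by
      have := congrFun hc (ρ l')
      simp only [Finset.sum_apply, Pi.smul_apply, col_apply, smul_eq_mul, Pi.zero_apply] at this
      have e : c l' = -∑ l, (B (ρ l') (γ l) - if l' = l then 1 else 0) * c l := by
        simp [sub_mul, mul_comm (B _ _), this]
      rw [e, abs_neg]
      refine (abs_sum_le_sum_abs _ _).trans (sum_le_sum fun l _ => ?_)
      rw [abs_mul]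
      exact mul_le_mul_of_nonneg_left (single_le_sum (f := fun l => |c l|) (fun _ _ => abs_nonneg _) (mem_univ l))
        (abs_nonneg _)
    have b := sum_le_sum fun l (_ : l ∈ univ) => a l
    simp only [← sum_mul] at b
    have p : 0 ≤ ∑ l, |c l| := sum_nonneg fun _ _ => abs_nonneg _
    intro l
    exact abs_eq_zero.1 ((sum_eq_zero_iff_of_nonneg fun _ _ => abs_nonneg _).1 (le_antisymm (by nlinarith) p) l (mem_univ l))
  have : Submodule.span ℝ (Set.range fun l => B.col (γ l)) = Submodule.span ℝ (Set.range B.col) :=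
    Submodule.eq_of_le_of_finrank_le (Submodule.span_mono (Set.range_comp_subset_range γ B.col))
      (by rw [finrank_span_eq_card li, ← rank_eq_finrank_span_cols]; exact hr)
  obtain ⟨c, hc⟩ := (Submodule.mem_span_range_iff_exists_fun ℝ).1
    (this ▸ Submodule.subset_span ⟨y, rfl⟩ : B.col y ∈ Submodule.span ℝ (Set.range fun l => B.col (γ l)))
  exact ⟨c, fun x => by simpa using (congrFun hc x).symm⟩

/-- the framed matrix -/
def fm {N : ℕ} (W : ℝ) (fr : I → L → Prop) [∀ i l, Decidable (fr i l)] (cr : I → L → ℝ) (fc : J → L → Prop)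
    [∀ i l, Decidable (fc i l)] (cc : J → L → ℝ) (a : I → J → ℝ) : Matrix (L × Fin N ⊕ I × S) (L × Fin N ⊕ J × S) ℝ
  | .inl x, .inl y => W * W * if x.1 = y.1 then 1 else 0
  | .inl x, .inr y => W * if fc y.1 x.1 then 1 - 2 * (x.2 : ℝ) else cc y.1 x.1
  | .inr x, .inl y => W * if fr x.1 y.1 then 1 - 2 * (y.2 : ℝ) else cr x.1 y.1
  | .inr x, .inr y => a x.1 y.1

variable [Fintype I] [Fintype J] [Fintype S] {fr : I → L → Prop} [∀ i l, Decidable (fr i l)] {cr : I → L → ℝ}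
  {fc : J → L → Prop} [∀ i l, Decidable (fc i l)] {cc : J → L → ℝ} {a : I → J → ℝ} {N : ℕ} {W : ℝ}

def nf (fr : I → L → Prop) [∀ i l, Decidable (fr i l)] : ℕ := ∑ i, ∑ l, if fr i l then 1 else 0

theorem yes (W : ℝ) (N : ℕ) (S : Type) [Fintype S] (u : I → L → ℝ) (v : J → L → ℝ) :
    ∃ B : Matrix (L × Fin N ⊕ I × S) (L × Fin N ⊕ J × S) ℝ, B.rank ≤ Fintype.card L ∧
      (∀ x y, B (.inl x) (.inl y) = W * W * if x.1 = y.1 then 1 else 0) ∧ (∀ x y, B (.inl x) (.inr y) = W * v y.1 x.1) ∧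
      (∀ x y, B (.inr x) (.inl y) = W * u x.1 y.1) ∧ ∀ x y, B (.inr x) (.inr y) = ∑ l, u x.1 l * v y.1 l :=
  ⟨(of (Sum.elim (fun x l => if x.1 = l then W else 0) fun x => u x.1) : Matrix _ L ℝ) *
    (of (Sum.elim (fun x l => if x.1 = l then W else 0) fun x => v x.1))ᵀ,
    (rank_mul_le_left _ _).trans (rank_le_card_width _), fun x y => by simp [mul_apply, eq_comm],
    fun x y => by simp [mul_apply], fun x y => by simp [mul_apply, mul_comm], fun x y => by simp [mul_apply]⟩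

theorem yes1 {u : I → L → ℝ} {v : J → L → ℝ} (hW : 0 ≤ W) (hu : ∀ i l, if fr i l then |u i l| ≤ 1 else u i l = cr i l)
    (hv : ∀ i l, if fc i l then |v i l| ≤ 1 else v i l = cc i l) :
    ∃ B : Matrix (L × Fin 2 ⊕ I × Fin 1) (L × Fin 2 ⊕ J × Fin 1) ℝ, B.rank ≤ Fintype.card L ∧
      ∑ x, ∑ y, |fm W fr cr fc cc a x y - B x y| = 2 * W * (nf fr + nf fc : ℕ) + ∑ i, ∑ j, |∑ l, u i l * v j l - a i j| := by
  obtain ⟨B, r, b1, b2, b3, b4⟩ := yes W 2 (Fin 1) u v
  have k : ∀ (p : Prop) [Decidable p] (x c : ℝ), (if p then |x| ≤ 1 else x = c) →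
      |W * (if p then 1 else c) - W * x| + |W * (if p then 1 - 2 else c) - W * x| = 2 * W * if p then 1 else 0 :=
    fun p _ x c h => by
      split_ifs at h ⊢
      · have := abs_le.1 h
        rw [abs_of_nonneg (by nlinarith), abs_of_nonpos (by nlinarith)]; ring
      · simp [h]
  refine ⟨B, r, ?_⟩
  simp only [Fintype.sum_sum_type, Fintype.sum_prod_type, fm, b1, b2, b3, b4, sub_self, abs_zero, sum_const_zero,
    zero_add, Fin.sum_univ_two, Fin.sum_univ_one, Fin.val_zero, Fin.val_one, Nat.cast_zero, Nat.cast_one, mul_zero,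
    mul_one, sub_zero, ← sum_add_distrib, k _ _ _ (hu _ _), k _ _ _ (hv _ _), nf, abs_sub_comm (a _ _)]
  push_cast
  simp only [sum_add_distrib, mul_add, mul_sum]
  rw [sum_comm (s := (univ : Finset L))]
  ring

theorem line {f : L → Prop} [DecidablePred f] {c x : L → ℝ} {D γ : ℝ} (h1 : 1 ≤ D) (hc : ∀ l, |c l| ≤ D)
    (Q : L → Fin 2 → L → ℝ) (hQ : ∑ l, ∑ τ, ∑ l', |Q l τ l'| ≤ γ) : ∃ (z : L → ℝ) (α : ℝ), α = ∑ l, |x l - z l| ∧
      (∀ l, if f l then |z l| ≤ 1 else z l = c l) ∧ (∀ l, |z l| ≤ D) ∧ (∀ l, |x l| ≤ D + α) ∧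
      2 * (∑ l, if f l then 1 else 0) + α - γ * (D + α) ≤
        ∑ l, ∑ τ : Fin 2, |(if f l then 1 - 2 * (τ : ℝ) else c l) - (x l + ∑ l', Q l τ l' * x l')| := by
  obtain ⟨z, hz⟩ : ∃ z : L → ℝ, ∀ l, z l = if f l then max (-1) (min 1 (x l)) else c l := ⟨_, fun _ => rfl⟩
  have a1 : ∀ l, if f l then |z l| ≤ 1 else z l = c l := fun l => by
    rw [hz]; split_ifs
    exacts [abs_le.2 ⟨le_max_left _ _, max_le (by norm_num) (min_le_left _ _)⟩, rfl]
  have a2 : ∀ l, |z l| ≤ D := fun l => by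
    have := a1 l
    split_ifs at this
    exacts [this.trans h1, this ▸ hc l]
  have a3 : ∀ l, |x l| ≤ D + ∑ l, |x l - z l| := fun l => by
    linarith [single_le_sum (f := fun l => |x l - z l|) (fun _ _ => abs_nonneg _) (mem_univ l), a2 l,
      abs_sub_abs_le_abs_sub (x l) (z l)]
  refine ⟨z, _, rfl, a1, a2, a3, ?_⟩
  have p : 0 ≤ D + ∑ l, |x l - z l| := add_nonneg (by linarith) (sum_nonneg fun _ _ => abs_nonneg _)
  refine le_trans (b := ∑ l, (2 * (if f l then 1 else 0) + |x l - z l| - ∑ τ, ∑ l', |Q l τ l'| * (D + ∑ l, |x l - z l|)))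
    ?_ (sum_le_sum fun l _ => ?_)
  · simp only [sum_sub_distrib, sum_add_distrib, ← mul_sum, ← sum_mul]
    linarith [mul_le_mul_of_nonneg_right hQ p]
  have b : ∀ τ, |∑ l', Q l τ l' * x l'| ≤ ∑ l', |Q l τ l'| * (D + ∑ l, |x l - z l|) := fun τ =>
    (abs_sum_le_sum_abs _ _).trans (sum_le_sum fun l' _ => by
      rw [abs_mul]; exact mul_le_mul_of_nonneg_left (a3 l') (abs_nonneg _))
  have b0 := abs_le.1 (b 0)
  have b1 := abs_le.1 (b 1)
  simp only [Fin.sum_univ_two, Fin.val_zero, Fin.val_one, Nat.cast_zero, Nat.cast_one]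
  generalize ∑ l', Q l 0 l' * x l' = p0, ∑ l', Q l 1 l' * x l' = p1, ∑ l', |Q l 0 l'| * _ = q0, ∑ l', |Q l 1 l'| * _ = q1 at *
  rw [hz]
  split_ifs
  · have := le_abs_self (1 - 2 * 0 - (x l + p0))
    have := neg_abs_le (1 - 2 * 0 - (x l + p0))
    have := le_abs_self (1 - 2 * 1 - (x l + p1))
    have := neg_abs_le (1 - 2 * 1 - (x l + p1))
    rcases le_total (x l) 1 with e | e
    · rw [min_eq_right e]
      rcases le_total (x l) (-1) with e' | e'
      · rw [max_eq_left e', abs_of_nonpos (by linarith)]; linarith [b0.1, b0.2, b1.1, b1.2]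
      · rw [max_eq_right e', sub_self, abs_zero]; linarith [b0.1, b0.2, b1.1, b1.2]
    · rw [min_eq_left e, max_eq_right (by norm_num), abs_of_nonneg (by linarith)]; linarith [b0.1, b0.2, b1.1, b1.2]
  · have := le_abs_self (c l - (x l + p0))
    have := neg_abs_le (c l - (x l + p0))
    have := abs_nonneg (c l - (x l + p1))
    have : |x l - c l| ≤ |c l - (x l + p0)| + q0 := abs_le.2 ⟨by linarith [b0.1, b0.2], by linarith [b0.1, b0.2]⟩
    linarith [b1.1, b1.2]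

theorem no1' {A B : Matrix (L × Fin 2 ⊕ I × Fin 1) (L × Fin 2 ⊕ J × Fin 1) ℝ} (hA : A = fm 1 fr cr fc cc a - B)
    (hr : B.rank ≤ Fintype.card L) {D θ : ℝ}
    (h1 : 1 ≤ D) (hcr : ∀ i l, |cr i l| ≤ D) (hcc : ∀ i l, |cc i l| ≤ D) (hθ : θ ≤ 1) (w0 : 8 * (nf fr + nf fc : ℕ) + 4 ≤ W)
    (w1 : 2 * (D + 1) * (Fintype.card I + Fintype.card J) ≤ W)
    (h : W * W * ∑ x, ∑ y, |A (.inl x) (.inl y)| +
      W * ∑ y, ∑ x, |A (.inl x) (.inr y)| +
      W * ∑ x, ∑ y, |A (.inr x) (.inl y)| +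
      ∑ x, ∑ y, |A (.inr x) (.inr y)| < 2 * W * (nf fr + nf fc : ℕ) + θ) :
    ∃ (u : I → L → ℝ) (v : J → L → ℝ), (∀ i l, if fr i l then |u i l| ≤ 1 else u i l = cr i l) ∧
      (∀ i l, if fc i l then |v i l| ≤ 1 else v i l = cc i l) ∧ ∑ i, ∑ j, |∑ l, u i l * v j l - a i j| < θ := by
  have nn : ∀ {α β : Type} [Fintype α] [Fintype β] (f : α → β → ℝ), 0 ≤ ∑ x, ∑ y, |f x y| := fun f =>
    sum_nonneg fun _ _ => sum_nonneg fun _ _ => abs_nonneg _
  obtain ⟨E, hE⟩ : ∃ E : L → Fin 2 → L → ℝ, ∀ l σ l', E l σ l' = B (.inl (l, σ)) (.inl (l', 0)) - if l = l' then 1 else 0 :=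
    ⟨_, fun _ _ _ => rfl⟩
  obtain ⟨G, hG⟩ : ∃ G, G = ∑ x, ∑ y, |A (.inl x) (.inl y)| := ⟨_, rfl⟩
  have g1 : ∑ l, ∑ l', |E l 0 l'| + ∑ l, ∑ l', |E l 1 l'| +
      ∑ l, ∑ l', |B (.inl (l, 0)) (.inl (l', 1)) - if l = l' then 1 else 0| ≤ G := by
    simp only [hG, hE, hA, Matrix.sub_apply, Fintype.sum_prod_type, Fin.sum_univ_two, fm, one_mul, sum_add_distrib, abs_sub_comm (ite _ _ _)]
    linarith [nn fun l l' => B (.inl (l, 1)) (.inl (l', 1)) - if l = l' then 1 else 0]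
  have F0 : (0 : ℝ) ≤ (nf fr + nf fc : ℕ) := Nat.cast_nonneg _
  have g0 := nn fun l l' => E l 0 l'
  have g0' := nn fun l l' => E l 1 l'
  have g0'' := nn fun l l' => B (.inl (l, 0)) (.inl (l', 1)) - if l = l' then 1 else 0
  have W0 : 0 < W := by linarith
  have G1 : G ≤ 1 / 4 := by
    have := mul_nonneg W0.le (nn fun y x => A (.inl x) (.inr y))
    have := mul_nonneg W0.le (nn fun x y => A (.inr x) (.inl y))
    have := nn fun x y => A (.inr x) (.inr y)
    rw [← hG] at h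
    by_contra q
    nlinarith [mul_pos W0 W0]
  choose c hc using span_cols hr (fun l => .inl (l, 0)) (fun l => .inl (l, 0)) (by simp only [← hE]; linarith)
  obtain ⟨η, hη⟩ : ∃ η : L → L → ℝ, ∀ l l', η l l' = c (.inl (l, 1)) l' - if l = l' then 1 else 0 := ⟨_, fun _ _ => rfl⟩
  have c1 : ∀ x l, B x (.inl (l, 1)) = B x (.inl (l, 0)) + ∑ l', η l l' * B x (.inl (l', 0)) := fun x l => by
    rw [hc]; simp [hη, sub_mul]
  have c2 : ∀ l σ y, B (.inl (l, σ)) y = c y l + ∑ l', E l σ l' * c y l' := fun l σ y => by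
    rw [hc]; simp [hE, sub_mul, mul_comm (c y _)]
  have e1 : ∑ l, ∑ l', |η l l'| ≤ 2 * G := by
    have : ∀ l l', |η l l'| ≤ |B (.inl (l', 0)) (.inl (l, 1)) - if l' = l then 1 else 0| + |E l' 0 l| +
        ∑ m, |E l' 0 m| * ∑ m, |η l m| := fun l l' => by
      have q : η l l' = (B (.inl (l', 0)) (.inl (l, 1)) - if l' = l then 1 else 0) - E l' 0 l - ∑ m, E l' 0 m * η l m := by
        rw [c2]; simp [hη, mul_sub, eq_comm]; ring
      rw [q]
      refine (abs_sub _ _).trans (add_le_add (abs_sub _ _) ((abs_sum_le_sum_abs _ _).trans (sum_le_sum fun m _ => ?_)))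
      rw [abs_mul]
      exact mul_le_mul_of_nonneg_left (single_le_sum (f := fun m => |η l m|) (fun _ _ => abs_nonneg _) (mem_univ m))
        (abs_nonneg _)
    have := sum_le_sum fun l (_ : l ∈ univ) => sum_le_sum fun l' (_ : l' ∈ univ) => this l l'
    simp only [sum_add_distrib, ← sum_mul, ← mul_sum] at this
    rw [sum_comm (f := fun l l' => |E l' 0 l|),
      sum_comm (f := fun l l' => |B (.inl (l', 0)) (.inl (l, 1)) - if l' = l then 1 else 0|)] at this
    nlinarith [nn η]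
  choose u α a0 a1 a2 a3 a4 using fun i => line (f := fr i) (x := fun l => B (.inr (i, 0)) (.inl (l, 0))) h1 (hcr i)
    (fun l τ l' => if τ = 0 then 0 else η l l') (γ := 2 * G) (by simpa using e1)
  choose v β b0 b1 b2 b3 b4 using fun j => line (f := fc j) (x := c (.inr (j, 0))) h1 (hcc j) E (γ := 2 * G)
    (by simp only [Fin.sum_univ_two, sum_add_distrib]; linarith)
  refine ⟨u, v, a1, b1, ?_⟩
  have p1 : ∀ i, 0 ≤ α i := fun i => a0 i ▸ sum_nonneg fun _ _ => abs_nonneg _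
  have p2 : ∀ i, 0 ≤ β i := fun i => b0 i ▸ sum_nonneg fun _ _ => abs_nonneg _
  have s1 := sum_le_sum fun i (_ : i ∈ univ) => a4 i
  have s2 := sum_le_sum fun i (_ : i ∈ univ) => b4 i
  have p3 : 0 ≤ ∑ i, α i := sum_nonneg fun i _ => p1 i
  have p4 : 0 ≤ ∑ i, β i := sum_nonneg fun i _ => p2 i
  simp only [← c2] at s2
  simp only [Fin.sum_univ_two, if_true, zero_mul, sum_const_zero, add_zero, one_ne_zero, if_false, ← c1, sum_sub_distrib,
    sum_add_distrib, ← mul_sum, sum_const, card_univ, nsmul_eq_mul] at s1 s2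
  simp only [← hG] at h
  simp only [hA, Matrix.sub_apply, Fintype.sum_prod_type, Fin.sum_univ_two, Fin.sum_univ_one, fm, one_mul, sum_add_distrib, nf] at h
  push_cast at h
  have cI : (0 : ℝ) ≤ Fintype.card I := Nat.cast_nonneg _
  have cJ : (0 : ℝ) ≤ Fintype.card J := Nat.cast_nonneg _
  have G0 : 0 ≤ G := by linarith
  have R0 := nn fun i j => a i j - B (.inr (i, 0)) (.inr (j, 0))
  have key : W / 2 * (∑ i, α i + ∑ i, β i) + ∑ i, ∑ j, |a i j - B (.inr (i, 0)) (.inr (j, 0))| < θ := by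
    have t1 := mul_le_mul_of_nonneg_left (add_le_add s1 s2) W0.le
    have t2 : 0 ≤ W * G * (W - 2 * D * (Fintype.card I + Fintype.card J)) := mul_nonneg (by positivity) (by nlinarith)
    have t3 : 0 ≤ W * (1 / 4 - G) * (∑ i, α i + ∑ i, β i) := mul_nonneg (mul_nonneg W0.le (by linarith)) (by linarith)
    nlinarith
  have s3 : ∑ i, α i + ∑ i, β i ≤ 1 := by nlinarith
  have r : ∀ i j, |∑ l, u i l * v j l - a i j| ≤ |a i j - B (.inr (i, 0)) (.inr (j, 0))| + (D + 1) * α i + (D + 1) * β j :=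
    fun i j => by
      have q : ∑ l, u i l * v j l - a i j = -(a i j - B (.inr (i, 0)) (.inr (j, 0))) -
          ∑ l, (B (.inr (i, 0)) (.inl (l, 0)) - u i l) * c (.inr (j, 0)) l - ∑ l, u i l * (c (.inr (j, 0)) l - v j l) := by
        rw [hc (.inr (j, 0))]
        simp only [sub_mul, mul_sub, sum_sub_distrib, mul_comm (c _ _)]; ring
      have := single_le_sum (fun j _ => p2 j) (mem_univ j)
      rw [q, a0, b0, mul_sum, mul_sum]
      refine (abs_sub _ _).trans (add_le_add ((abs_sub _ _).trans (add_le_add (abs_neg _).le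
        ((abs_sum_le_sum_abs _ _).trans (sum_le_sum fun l _ => ?_)))) ((abs_sum_le_sum_abs _ _).trans
          (sum_le_sum fun l _ => ?_)))
      · rw [abs_mul, mul_comm]; exact mul_le_mul_of_nonneg_right (by linarith [b3 j l]) (abs_nonneg _)
      · rw [abs_mul]; exact mul_le_mul_of_nonneg_right (by linarith [a2 i l]) (abs_nonneg _)
  have := sum_le_sum fun i (_ : i ∈ univ) => sum_le_sum fun j (_ : j ∈ univ) => r i j
  simp only [sum_add_distrib, ← mul_sum, sum_const, card_univ, nsmul_eq_mul] at this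
  nlinarith [mul_nonneg (mul_nonneg cI p3) (by linarith : 0 ≤ D + 1), mul_nonneg (mul_nonneg cJ p4) (by linarith : 0 ≤ D + 1),
    mul_le_mul_of_nonneg_right w1 (add_nonneg p3 p4)]

theorem no1 {B : Matrix (L × Fin 2 ⊕ I × Fin 1) (L × Fin 2 ⊕ J × Fin 1) ℝ} (hr : B.rank ≤ Fintype.card L) {D θ : ℝ}
    (h1 : 1 ≤ D) (hcr : ∀ i l, |cr i l| ≤ D) (hcc : ∀ i l, |cc i l| ≤ D) (hθ : θ ≤ 1) (w0 : 8 * (nf fr + nf fc : ℕ) + 4 ≤ W)
    (w1 : 2 * (D + 1) * (Fintype.card I + Fintype.card J) ≤ W)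
    (h : ∑ x, ∑ y, |fm W fr cr fc cc a x y - B x y| < 2 * W * (nf fr + nf fc : ℕ) + θ) :
    ∃ (u : I → L → ℝ) (v : J → L → ℝ), (∀ i l, if fr i l then |u i l| ≤ 1 else u i l = cr i l) ∧
      (∀ i l, if fc i l then |v i l| ≤ 1 else v i l = cc i l) ∧ ∑ i, ∑ j, |∑ l, u i l * v j l - a i j| < θ := by
  classical
  have W0 : 0 < W := lt_of_lt_of_le (by positivity) w0
  refine no1' (B := diagonal (Sum.elim (fun _ => W⁻¹) fun _ => 1) * B * diagonal (Sum.elim (fun _ => W⁻¹) fun _ => 1))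
    rfl ((rank_mul_le_left _ _).trans ((rank_mul_le_right _ _).trans hr)) h1 hcr hcc hθ w0 w1 (h.trans_eq' ?_)
  have k : ∀ w x y : ℝ, 0 < w → w * |x - w⁻¹ * y| = |w * x - y| := fun w x y h => by
    rw [← abs_of_pos h, ← abs_mul, abs_of_pos h, mul_sub, mul_inv_cancel_left₀ h.ne']
  simp only [Matrix.sub_apply, Fintype.sum_sum_type, sum_add_distrib, mul_sum, fm, mul_diagonal, diagonal_mul, Sum.elim_inl, Sum.elim_inr,
    one_mul, mul_one, mul_comm _ W⁻¹, ← mul_assoc, ← mul_inv, k _ _ _ W0, k _ _ _ (mul_pos W0 W0)]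
  rw [sum_comm (s := (univ : Finset (J × Fin 1)))]
  ring

end Pool.Agent.H.MP_d82c50_lc
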