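import Pool.Agent.H.MP_d82c50_lc.A

/-! Rigidity of framed matrices. -/

namespace Pool.Agent.H.MP_d82c50_lc

open Finset Module Matrix Classical

variable {L I J S X Y : Type} [Fintype L] [DecidableEq L] [Fintype X] [Fintype Y]

theorem span_id {B : Matrix X Y ℝ} (hr : B.rank ≤ Fintype.card L) (ρ : L → X) (γ : L → Y)
    (h : ∀ l' l, B (ρ l') (γ l) = if l' = l then 1 else 0) (x y) : B x y = ∑ l, B x (γ l) * B (ρ l) y := by
  obtain ⟨c, hc⟩ := span_cols hr ρ γ (by simp [h]) y
  have : ∀ l, B (ρ l) y = c l := fun l => by simp [hc, h]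
  simp only [this, hc x, mul_comm]

theorem ex_zero {α : Type} [Fintype α] {f : α → ℕ} (h : ∑ a, f a < Fintype.card α) : ∃ a, f a = 0 := by
  by_contra q
  have := card_nsmul_le_sum univ f 1 fun a _ => Nat.pos_of_ne_zero fun e => q ⟨a, e⟩
  exact h.not_ge (by simpa using this)

theorem agree {N} {B : Matrix X Y ℝ} (hr : B.rank ≤ Fintype.card L) (ρ : L → X) (γ : L × Fin N → Y) {r : ℕ}
    (h : (∑ l', ∑ y, if (if l' = y.1 then 1 else 0) = B (ρ l') (γ y) then 0 else 1) = r) (hN : r < N) (x l) :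
    N ≤ (∑ τ : Fin N, if 1 - 2 * (τ : ℝ) = B x (γ (l, τ)) then 0 else 1) + (1 + r) := by
  obtain ⟨t, ht⟩ := @ex_zero _ _ (fun τ => ∑ l', ∑ l, if (if l' = l then 1 else 0) = B (ρ l') (γ (l, τ)) then 0 else 1) (by
    simp only [Fintype.sum_prod_type_right] at h
    rw [sum_comm, h, Fintype.card_fin]; exact hN)
  simp only [sum_eq_zero_iff, mem_univ, forall_true_left, ite_eq_left_iff, one_ne_zero, imp_false, not_not] at ht
  have a := span_id hr ρ (fun l => γ (l, t)) (fun l' l => (ht l' l).symm) x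
  have b : (∑ τ : Fin N, if 1 - 2 * (τ : ℝ) = B x (γ (l, t)) then 1 else 0) ≤ 1 := by
    rw [← card_filter]
    refine card_le_one.2 fun a p b q => Fin.ext (Nat.cast_injective (R := ℝ) ?_)
    linarith [(mem_filter.1 p).2, (mem_filter.1 q).2]
  have c : (∑ τ : Fin N, ∑ l', if (if l' = l then 1 else 0) = B (ρ l') (γ (l, τ)) then 0 else 1) ≤ r := by
    rw [sum_comm, ← h]
    refine sum_le_sum fun l' _ => ?_
    rw [Fintype.sum_prod_type]
    exact single_le_sum (f := fun l => ∑ τ, if (if l' = l then 1 else 0) = B (ρ l') (γ (l, τ)) then 0 else 1)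
      (fun _ _ => Nat.zero_le _) (mem_univ l)
  refine le_trans ?_ (add_le_add_right (add_le_add b c) _)
  rw [← sum_add_distrib, ← sum_add_distrib]
  refine le_trans (by simp) (card_nsmul_le_sum univ _ 1 fun τ _ => Nat.pos_of_ne_zero fun e => ?_)
  simp only [Nat.add_eq_zero_iff, sum_eq_zero_iff, mem_univ, forall_true_left, ite_eq_left_iff, one_ne_zero, imp_false,
    not_not, ite_eq_right_iff] at e
  refine e.2.1 ?_
  rw [e.1, a]
  simp [← e.2.2]

variable [Fintype I] [Fintype J] [Fintype S] {fr : I → L → Prop} [∀ i l, Decidable (fr i l)] {cr : I → L → ℝ}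
  {fc : J → L → Prop} [∀ i l, Decidable (fc i l)] {cc : J → L → ℝ} {a : I → J → ℝ} {N : ℕ}

theorem nf_eq (fr : I → L → Prop) [∀ i l, Decidable (fr i l)] (S : Type) [Fintype S] :
    (∑ x : I × S, ∑ l, if fr x.1 l then 1 else 0) = nf fr * Fintype.card S := by
  rw [Fintype.sum_prod_type, nf, sum_mul]
  refine sum_congr rfl fun i _ => ?_
  show (∑ _s : S, ∑ l, if fr i l then 1 else 0) = _
  rw [sum_const, card_univ, smul_eq_mul, mul_comm]

theorem yes0 {u : I → L → ℝ} {v : J → L → ℝ} (hu : ∀ i l, ¬fr i l → u i l = cr i l) (hv : ∀ i l, ¬fc i l → v i l = cc i l)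
    (h : ∀ i j, ∑ l, u i l * v j l = a i j) : ∃ B : Matrix (L × Fin N ⊕ I × S) (L × Fin N ⊕ J × S) ℝ,
      B.rank ≤ Fintype.card L ∧ (∑ x, ∑ y, if fm 1 fr cr fc cc a x y = B x y then 0 else 1) ≤
        (nf fr + nf fc) * (N * Fintype.card S) := by
  obtain ⟨B, r, b1, b2, b3, b4⟩ := yes 1 N S u v
  have k : ∀ (p : Prop) [Decidable p] (t x c : ℝ), (¬p → x = c) →
      (if (if p then t else c) = x then 0 else 1) ≤ if p then 1 else 0 := fun p _ t x c h => by
    by_cases q : p
    · simp only [q, if_true]; split_ifs <;> omega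
    · simp [q, h q]
  refine ⟨B, r, ?_⟩
  simp only [Fintype.sum_sum_type, fm, b1, b2, b3, b4, h, if_true, sum_const_zero, zero_add, add_zero, one_mul]
  refine (add_le_add (sum_le_sum fun x _ => sum_le_sum fun y _ => k _ _ _ _ (hv _ _))
    (sum_le_sum fun x _ => sum_le_sum fun y _ => k _ _ _ _ (hu _ _))).trans_eq ?_
  have q : ∀ (f : L → ℕ), ∑ y : L × Fin N, f y.1 = N * ∑ l, f l := fun f => by
    simp [Fintype.sum_prod_type, mul_sum]
  rw [sum_comm, sum_congr rfl fun (y : J × S) _ => q fun l => if fc y.1 l then 1 else 0,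
    sum_congr rfl fun (y : I × S) _ => q fun l => if fr y.1 l then 1 else 0, ← mul_sum, ← mul_sum, nf_eq, nf_eq]
  ring

theorem sum_inj {α β : Type} [Fintype α] [Fintype β] (f : β → ℕ) {e : α → β} (he : Function.Injective e) :
    ∑ a, f (e a) ≤ ∑ b, f b :=
  (sum_map univ ⟨e, he⟩ f).ge.trans (sum_le_sum_of_subset (subset_univ _))

theorem no0 {B : Matrix (L × Fin N ⊕ I × S) (L × Fin N ⊕ J × S) ℝ} (hr : B.rank ≤ Fintype.card L)
    (h1 : nf fr + nf fc < Fintype.card S) (h2 : 2 * ((nf fr + nf fc) * Fintype.card S) < N) {ι : S → Fin N}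
    (hι : Function.Injective ι) (h : (∑ x, ∑ y, if fm 1 fr cr fc cc a x y = B x y then 0 else 1) ≤
      (nf fr + nf fc) * (N * Fintype.card S)) : ∃ (u : I → L → ℝ) (v : J → L → ℝ), (∀ i l, ¬fr i l → u i l = cr i l) ∧
      (∀ i l, ¬fc i l → v i l = cc i l) ∧ ∀ i j, ∑ l, u i l * v j l = a i j := by
  let fe : L × Fin N ⊕ I × S → L × Fin N ⊕ J × S → Prop := fun x y => match x, y with
    | .inl x, .inr y => fc y.1 x.1
    | .inr x, .inl y => fr x.1 y.1
    | _, _ => False
  obtain ⟨P, hP⟩ : ∃ P, P = ∑ x, ∑ y, if fe x y ∨ fm 1 fr cr fc cc a x y = B x y then 0 else 1 := ⟨_, rfl⟩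
  have e : (∑ x, ∑ y, if fm 1 fr cr fc cc a x y = B x y then 0 else 1) = P +
      ((∑ y : J × S, ∑ l, if fc y.1 l then ∑ τ : Fin N, if 1 - 2 * (τ : ℝ) = B (.inl (l, τ)) (.inr y) then 0 else 1 else 0) +
      ∑ x : I × S, ∑ l, if fr x.1 l then ∑ τ : Fin N, if 1 - 2 * (τ : ℝ) = B (.inr x) (.inl (l, τ)) then 0 else 1 else 0) := by
    have k : ∀ (p : Prop) [Decidable p] (t x c : ℝ), (if (if p then t else c) = x then 0 else 1) =
        (if p ∨ (if p then t else c) = x then 0 else 1) + if p then if t = x then 0 else 1 else 0 := fun p _ t x c => by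
      by_cases q : p <;> simp [q]
    simp only [hP, Fintype.sum_sum_type, fm, fe, false_or, one_mul, sum_add_distrib]
    rw [sum_congr rfl fun x _ => sum_congr rfl fun y _ => k (fc _ _) _ _ _,
      sum_congr rfl fun x _ => sum_congr rfl fun y _ => k (fr _ _) _ _ _]
    simp only [sum_add_distrib]
    rw [sum_comm (s := (univ : Finset (L × Fin N))) (f := fun x (y : J × S) => if fc y.1 x.1 then _ else 0)]
    simp only [Fintype.sum_prod_type (α₁ := L), sum_ite_irrel, sum_const_zero]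
    ring
  have N0 : (univ : Finset (Fin N)).Nonempty := ⟨⟨0, by omega⟩, mem_univ _⟩
  have ff : (∑ x : L × Fin N, ∑ y : L × Fin N, if (if x.1 = y.1 then 1 else 0) = B (.inl x) (.inl y) then 0 else 1) ≤ P := by
    simp only [hP, Fintype.sum_sum_type, fm, fe, false_or, one_mul, sum_add_distrib]
    omega
  obtain ⟨t, -, ht⟩ := exists_le_of_sum_le N0 (f := fun τ => N * ∑ l', ∑ y : L × Fin N,
    if (if l' = y.1 then 1 else 0) = B (.inl (l', τ)) (.inl y) then 0 else 1) (g := fun _ => P) (by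
      rw [← mul_sum, ← Fintype.sum_prod_type_right', sum_const, card_univ, Fintype.card_fin]
      exact Nat.mul_le_mul_left _ ff)
  obtain ⟨t', -, ht'⟩ := exists_le_of_sum_le N0 (f := fun τ => N * ∑ l', ∑ y : L × Fin N,
    if (if l' = y.1 then 1 else 0) = Bᵀ (.inl (l', τ)) (.inl y) then 0 else 1) (g := fun _ => P) (by
      rw [← mul_sum, ← Fintype.sum_prod_type_right', sum_const, card_univ, Fintype.card_fin, sum_comm]
      exact Nat.mul_le_mul_left _ (by simpa only [transpose_apply, eq_comm] using ff))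
  generalize hr1 : (∑ l', ∑ y : L × Fin N, if (if l' = y.1 then 1 else 0) = B (.inl (l', t)) (.inl y) then 0 else 1) = r at ht
  generalize hr2 : (∑ l', ∑ y : L × Fin N, if (if l' = y.1 then 1 else 0) = Bᵀ (.inl (l', t')) (.inl y) then 0 else 1) = r'
    at ht'
  have lt : ∀ r, N * r ≤ P → r < N := fun r q => by
    by_contra w
    have := Nat.mul_le_mul_left N (not_lt.1 w)
    have : P ≤ (nf fr + nf fc) * (N * Fintype.card S) := by omega
    nlinarith
  have a1 := agree hr (fun l => .inl (l, t)) .inl hr1 (lt r ht)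
  have a2 := agree (B := Bᵀ) (by rw [rank_transpose]; exact hr) (fun l => .inl (l, t')) .inl hr2 (lt r' ht')
  have k : ∀ {I : Type} [Fintype I] (fr : I → L → Prop) [∀ i l, Decidable (fr i l)] (f : I × S → L → ℕ) (r : ℕ),
      (∀ x l, N ≤ f x l + (1 + r)) → nf fr * (N * Fintype.card S) ≤
        (∑ x, ∑ l, if fr x.1 l then f x l else 0) + nf fr * Fintype.card S * (1 + r) := fun fr _ f r q => by
    have := sum_le_sum fun x (_ : x ∈ univ) => sum_le_sum fun l (_ : l ∈ univ) =>
      (show (if fr x.1 l then 1 else 0) * N ≤ (if fr x.1 l then f x l else 0) + (if fr x.1 l then 1 else 0) * (1 + r) by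
        split_ifs <;> simp [q])
    simp only [sum_add_distrib, ← sum_mul] at this
    rw [nf_eq] at this
    linarith
  have a3 := k fr _ _ fun x => a1 (.inr x)
  have a4 := k fc _ _ fun x => a2 (.inr x)
  simp only [transpose_apply] at a4
  have a5 : P < Fintype.card (S × S) := by
    rw [Fintype.card_prod]
    generalize Fintype.card S = s, nf fr = f, nf fc = g at *
    have b : P ≤ f * s * (1 + r) + g * s * (1 + r') := by nlinarith
    obtain ⟨rfl, rfl⟩ : r = 0 ∧ r' = 0 := by
      by_contra w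
      rcases le_total r r' with q | q
      · have := Nat.mul_le_mul_left (f * s) q
        have : 1 ≤ r' := by omega
        nlinarith
      · have := Nat.mul_le_mul_left (g * s) q
        have : 1 ≤ r := by omega
        nlinarith
    nlinarith
  have inj : ∀ I : Type, Function.Injective fun p : S × (L ⊕ I) =>
      (p.2.map (fun l => (l, ι p.1)) fun i => (i, p.1) : L × Fin N ⊕ I × S) := fun I => by
    rintro ⟨s, l | i⟩ ⟨s', l' | i'⟩ <;> simp [hι.eq_iff, and_comm]
  obtain ⟨⟨s, s'⟩, z⟩ := @ex_zero (S × S) _ (fun s => ∑ x : L ⊕ I, ∑ y : L ⊕ J,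
    if fe (x.map (fun l => (l, ι s.1)) fun i => (i, s.1)) (y.map (fun l => (l, ι s.2)) fun i => (i, s.2)) ∨
      fm 1 fr cr fc cc a (x.map (fun l => (l, ι s.1)) fun i => (i, s.1)) (y.map (fun l => (l, ι s.2)) fun i => (i, s.2)) =
        B (x.map (fun l => (l, ι s.1)) fun i => (i, s.1)) (y.map (fun l => (l, ι s.2)) fun i => (i, s.2)) then 0 else 1)
    (lt_of_le_of_lt (by
      rw [hP, Fintype.sum_prod_type]
      refine le_trans ?_ (sum_inj _ (inj I))
      rw [Fintype.sum_prod_type]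
      refine sum_le_sum fun s _ => ?_
      rw [sum_comm]
      refine sum_le_sum fun x _ => le_trans ?_ (sum_inj _ (inj J))
      rw [Fintype.sum_prod_type]) a5)
  simp only [sum_eq_zero_iff, mem_univ, forall_true_left, ite_eq_left_iff, one_ne_zero, imp_false, not_not, Sum.forall,
    Sum.map_inl, Sum.map_inr, fe, fm, false_or, one_mul] at z
  refine ⟨fun i l => B (.inr (i, s)) (.inl (l, ι s')), fun j l => B (.inl (l, ι s)) (.inr (j, s')), fun i l q => ?_,
    fun j l q => ?_, fun i j => ?_⟩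
  · simpa [q] using (((z.2 i).1 l).resolve_left q).symm
  · simpa [q] using (((z.1 l).2 j).resolve_left q).symm
  · rw [(z.2 i).2 j, span_id hr (fun l => .inl (l, ι s)) (fun l => .inl (l, ι s')) fun l' l => ((z.1 l').1 l).symm]

end Pool.Agent.H.MP_d82c50_lc
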