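import Pool.Agent.Lib.helper15.Sg1

/-! Approximate bounded quadratic systems are hard for ETR. -/

namespace Pool.Agent.H.MP_d82c50_lc

open Pool.Agent.Lib.CX Pool.Agent.Lib.ER Pool.Agent.Lib.SG Finset

set_option synthInstance.maxSize 4000

def ext (M L : ℕ) (E : List Q4) : List Q4 :=
  (0, M, 0, 0) :: (0, M + 1, M + 1, 0) :: (E ++ (List.range L).map fun j => (M + 1 + j, M + 1 + j, M, M + 1 + (j + 1)))

theorem etr_of_aq {β : Type} [Enc β] {B : β → Prop} (f : List Unit × List Q4 → β) (hf : PT f)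
    (h : ∀ M E, 0 < M.length → (∀ e ∈ E, Q4.lt M.length e) →
      ((∃ x : ℕ → ℝ, x 0 = 1 ∧ (∀ i, |x i| ≤ 1) ∧ 0 < x (M.length - 1) ∧ ∀ e ∈ E, Q4.ok x e) → B (f (M, E))) ∧
      (B (f (M, E)) → ∃ x : ℕ → ℝ, x 0 = 1 ∧ (∀ i < M.length, |x i| ≤ 1) ∧
        ∀ e ∈ E, |Q4.er x e| ≤ x (M.length - 1) / 32)) : Red ETR B := by
  refine etr_of_bq (fun a => f (List.replicate (a.1.length + 1 + (7 * a.1.length + a.2.length + 7 + 1) + 1) (),
    ext a.1.length (7 * a.1.length + a.2.length + 7 + 1) a.2)) (hf.comp (by unfold ext; fun_prop)) fun M E h0 hE => ?_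
  have tl : 6 * M.length + (t6 M.length E).length + 8 = 7 * M.length + E.length + 7 + 1 := by simp [t6]; omega
  simp only
  generalize 7 * M.length + E.length + 7 = L at *
  generalize M.length = M at *
  obtain ⟨h1, h2⟩ := h (List.replicate (M + 1 + (L + 1) + 1) ()) (ext M (L + 1) E) (by simp) (by
    simp only [ext, List.forall_mem_cons, List.forall_mem_append, List.forall_mem_map, List.mem_range, List.length_replicate,
      Q4.lt]
    exact ⟨by omega, by omega, fun e he => by have := hE e he; unfold Q4.lt at this; omega, fun j hj => by omega⟩)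
  simp only [List.length_replicate, Nat.add_sub_cancel, ext, List.forall_mem_cons, List.forall_mem_append,
    List.forall_mem_map, List.mem_range] at h1 h2
  refine ⟨fun ⟨x, x0, xb, hx⟩ => h1 ?_, fun b => ?_⟩
  · let y : ℕ → ℝ := fun i => if i < M then x i else if i = M then 0 else (1 / 2) ^ 2 ^ (i - (M + 1))
    have y1 : ∀ i < M, y i = x i := fun i hi => if_pos hi
    have y2 : y M = 0 := by simp [y]
    have y3 : ∀ j, y (M + 1 + j) = (1 / 2) ^ 2 ^ j := fun j => by
      simp only [y]; rw [if_neg (by omega), if_neg (by omega), Nat.add_sub_cancel_left]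
    have y4 := y3 0
    simp only [Q4.ok]
    refine ⟨y, by rw [y1 0 h0, x0], fun i => ?_, by rw [y3]; positivity, by simp [y2], by
      rw [y1 0 h0, x0, show M + 1 = M + 1 + 0 from rfl, y4]; norm_num, fun e he => ?_, fun j _ => ?_⟩
    · simp only [y]
      split_ifs
      exacts [xb i, by simp, by rw [abs_of_pos (by positivity)]; exact pow_le_one₀ (by norm_num) (by norm_num)]
    · obtain ⟨a, b, c, d⟩ := hE e he
      rw [y1 _ a, y1 _ b, y1 _ c, y1 _ d]
      exact hx e he
    · rw [y3, y3, y2, pow_succ, pow_mul]; ring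
  obtain ⟨x, x0, xb, a1, a2, a3, a4⟩ := h2 b
  simp only [Q4.er, x0, one_mul] at a1 a2 a4
  obtain ⟨δ, hδ⟩ : ∃ δ, δ = x (M + 1 + (L + 1)) / 32 := ⟨_, rfl⟩
  rw [← hδ] at a1 a2 a3 a4
  have d0 : 0 ≤ δ := (abs_nonneg _).trans a1
  have d1 : δ ≤ 1 / 32 := by linarith [(abs_le.1 (xb (M + 1 + (L + 1)) (by omega))).2]
  rw [abs_le] at a1 a2
  have b1 : ∀ j ≤ L, |x (M + 1 + (j + 1))| ≤ (1 / 2) ^ 2 ^ (j + 1) + 8 * δ := fun j hj => by
    induction j with
    | zero =>
      have := abs_le.1 (a4 0 (by omega))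
      simp only [add_zero] at this
      norm_num at this ⊢
      rw [abs_le]
      constructor <;> nlinarith [a1.1, a1.2, a2.1, a2.2, this.1, this.2]
    | succ j ih =>
      have p := ih (by omega)
      have q := abs_le.1 (a4 (j + 1) (by omega))
      have r : ((1 : ℝ) / 2) ^ 2 ^ (j + 1) ≤ (1 / 2) ^ 2 :=
        pow_le_pow_of_le_one (by norm_num) (by norm_num) (Nat.le_self_pow (by omega) 2)
      have s : (0 : ℝ) ≤ (1 / 2) ^ 2 ^ (j + 1) := by positivity
      rw [pow_succ 2 (j + 1), pow_mul]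
      generalize ((1 : ℝ) / 2) ^ 2 ^ (j + 1) = X at *
      have := mul_self_le_mul_self (abs_nonneg _) p
      rw [abs_mul_abs_self] at this
      rw [abs_le]
      constructor <;> nlinarith [a1.1, a1.2, q.1, q.2, mul_self_nonneg (x (M + 1 + (j + 1)))]
  have b2 := (abs_le.1 (b1 L le_rfl)).2
  by_contra hno
  let u : ℕ → ℝ := fun i => if i < M then 2 * x i else 2 * √(1 - x (i - M) ^ 2)
  have u1 : ∀ i < M, u i = 2 * x i := fun i hi => if_pos hi
  refine t6_no h0 hE hno u (by rw [u1 0 h0, x0]; norm_num) ?_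
  rw [tl]
  rw [one_div_pow] at b2
  rw [div_eq_mul_one_div]
  have s : (0 : ℝ) ≤ 1 / 2 ^ 2 ^ (L + 1) := by positivity
  simp only [t6, List.forall_mem_append, List.forall_mem_map, List.mem_range, T6.v]
  refine ⟨fun e he => ?_, fun i hi => ?_⟩
  · obtain ⟨a, b, c, d⟩ := hE e he
    have := abs_le.1 (a3 e he)
    unfold Q4.er at this
    rw [u1 _ a, u1 _ b, u1 _ c, u1 _ d, u1 _ h0, x0, abs_le]
    constructor <;> linarith [this.1, this.2]
  · have : u (M + i) = 2 * √(1 - x i ^ 2) := by simp [u]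
    have t := abs_le.1 (xb i (by omega))
    have := Real.mul_self_sqrt (show 0 ≤ 1 - x i ^ 2 by nlinarith)
    rw [‹u (M + i) = _›, u1 _ hi, u1 _ h0, x0, abs_le]
    constructor <;> nlinarith

end Pool.Agent.H.MP_d82c50_lc
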