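import Pool.Agent.H.MP_d82c50_lc.B
import Pool.Agent.H.MP_d82c50_lc.C
import Pool.Agent.Lib.lead.CXRat

/-! Hardness of entrywise low-rank approximation. -/

namespace Pool.Agent.H.MP_d82c50_lc

open Pool.Agent.Lib.CX Pool.Agent.Lib.ER Pool.Agent.Lib.SG Finset

set_option synthInstance.maxSize 4000

abbrev fr (R : List Q4) (i l : ℕ) : Prop := l = 3 * (R.getD i (0, 0, 0, 0)).2.1 + 1

def cr (e : Q4) (l : ℕ) : ℤ :=
  (if l = 3 * e.2.2.1 then 1 else 0) - (if l = 3 * e.2.2.2 then 1 else 0) - if l = 3 * e.1 + 2 then 1 else 0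

abbrev fc (M j l : ℕ) : Prop := 3 ≤ l ∧ l < 3 * M ∧ (j = 0 ∧ l % 3 ≠ 2 ∨ j ≠ 0 ∧ l % 3 = 2)

def cc (M j l : ℕ) : ℤ :=
  if j = 0 then if l % 3 = 1 ∨ l = 0 then 1 else 0 else if l = 3 * M + 1 then 98 else if l % 3 = 1 ∨ l = 2 then 1 else 0

def aa (M : ℕ) (e : Q4) (j : ℕ) : ℤ := if j = 0 ∧ e.2.1 = M then 1 else 0

def ent (M N S : ℕ) (W : ℤ) (R : List Q4) (p q : ℕ) : ℤ :=
  if p < (3 * M + 3) * N then
    if q < (3 * M + 3) * N then W * W * if p / N = q / N then 1 else 0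
    else W * if fc M ((q - (3 * M + 3) * N) / S) (p / N) then 1 - 2 * ((p % N : ℕ) : ℤ)
      else cc M ((q - (3 * M + 3) * N) / S) (p / N)
  else if q < (3 * M + 3) * N then W * if fr R ((p - (3 * M + 3) * N) / S) (q / N) then 1 - 2 * ((q % N : ℕ) : ℤ)
      else cr (R.getD ((p - (3 * M + 3) * N) / S) (0, 0, 0, 0)) (q / N)
    else aa M (R.getD ((p - (3 * M + 3) * N) / S) (0, 0, 0, 0)) ((q - (3 * M + 3) * N) / S)

abbrev FM (M N S : ℕ) (W : ℤ) (R : List Q4) :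
    Matrix (Fin (3 * M + 3) × Fin N ⊕ Fin R.length × Fin S) (Fin (3 * M + 3) × Fin N ⊕ Fin 2 × Fin S) ℝ :=
  fm W (fun i l => fr R i l) (fun i l => cr (R.getD i (0, 0, 0, 0)) l) (fun j l => fc M j l) (fun j l => cc M j l)
    fun i j => aa M (R.getD i (0, 0, 0, 0)) j

abbrev Inst := List Unit × List Unit × List (List ℚ) × ℕ × ℚ

def mat (a : Inst) : Matrix (Fin a.1.length) (Fin a.2.1.length) ℝ := fun i j => ((a.2.2.1.getD i []).getD j 0 : ℚ)

def nF (M : ℕ) (R : List Q4) : ℕ :=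
  ((List.range R.length).map fun i => ((List.range (3 * M + 3)).map fun l => if fr R i l then 1 else 0).sum).sum +
    ((List.range 2).map fun j => ((List.range (3 * M + 3)).map fun l => if fc M j l then 1 else 0).sum).sum

theorem nF_eq (M R) : nF M R = nf (fun (i : Fin R.length) (l : Fin (3 * M + 3)) => fr R i l) +
    nf fun (j : Fin 2) (l : Fin (3 * M + 3)) => fc M j l := by
  have : ∀ n (f : ℕ → ℕ), ((List.range n).map f).sum = ∑ i : Fin n, f i := fun n f => sum_range f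
  simp only [nF, nf, this]

theorem nF_le (M R) : nF M R ≤ (R.length + 2) * (3 * M + 3) := by
  have : ∀ {a b : ℕ} (f : Fin a → Fin b → Prop) [∀ i l, Decidable (f i l)], nf f ≤ a * b := fun f _ => by
    refine (sum_le_card_nsmul _ _ _ fun i _ => sum_le_card_nsmul _ _ 1 fun l _ => by split_ifs <;> omega).trans ?_
    simp
  rw [nF_eq, add_mul]
  exact add_le_add (this _) (this _)

def inst (M N S : ℕ) (W : ℤ) (R : List Q4) (ε : ℤ) : Inst :=
  (List.replicate ((3 * M + 3) * N + R.length * S) (), List.replicate ((3 * M + 3) * N + 2 * S) (),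
    (List.range ((3 * M + 3) * N + R.length * S)).map fun p => (List.range ((3 * M + 3) * N + 2 * S)).map fun q =>
      (ent M N S W R p q : ℚ), 3 * M + 3, ε)

theorem tr {β : Type} [AddCommMonoid β] (φ : ℝ → ℝ → β) (P : β → Prop) (M N S W R ε) :
    (∃ B : Matrix _ _ ℝ, B.rank ≤ (inst M N S W R ε).2.2.2.1 ∧ P (∑ i, ∑ j, φ (mat (inst M N S W R ε) i j) (B i j))) ↔
      ∃ B : Matrix _ _ ℝ, B.rank ≤ Fintype.card (Fin (3 * M + 3)) ∧ P (∑ i, ∑ j, φ (FM M N S W R i j) (B i j)) := by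
  let e : ∀ r : ℕ, Fin (3 * M + 3) × Fin N ⊕ Fin r × Fin S ≃ Fin (List.replicate ((3 * M + 3) * N + r * S) ()).length :=
    fun r => (((Equiv.sumCongr finProdFinEquiv finProdFinEquiv).trans finSumFinEquiv).trans
      (finCongr List.length_replicate.symm))
  have e1 : ∀ r x, ((e r (.inl x) : ℕ) < (3 * M + 3) * N ∧ (e r (.inl x) : ℕ) / N = x.1) ∧ (e r (.inl x) : ℕ) % N = x.2 :=
    fun r x => by
      have a : (e r (.inl x) : ℕ) = x.2 + N * x.1 := rfl
      have b : 0 < N := x.2.pos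
      refine ⟨⟨(finProdFinEquiv x).2, ?_⟩, ?_⟩
      · rw [a, Nat.add_mul_div_left _ _ b, Nat.div_eq_of_lt x.2.2, zero_add]
      · rw [a, Nat.add_mul_mod_self_left, Nat.mod_eq_of_lt x.2.2]
  have e2 : ∀ r x, ¬(e r (.inr x) : ℕ) < (3 * M + 3) * N ∧ ((e r (.inr x) : ℕ) - (3 * M + 3) * N) / S = x.1 :=
    fun r x => by
      have a : (e r (.inr x) : ℕ) = (3 * M + 3) * N + (x.2 + S * x.1) := rfl
      have b : 0 < S := x.2.pos
      rw [a, Nat.add_sub_cancel_left, Nat.add_mul_div_left _ _ b, Nat.div_eq_of_lt x.2.2, zero_add]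
      exact ⟨by omega, rfl⟩
  have e3 : ∀ x y, mat (inst M N S W R ε) (e _ x) (e _ y) = FM M N S W R x y := fun x y => by
    have a : mat (inst M N S W R ε) (e _ x) (e _ y) = ent M N S W R (e _ x) (e _ y) := by
      have p := (e _ x).2.trans_eq List.length_replicate
      have q := (e _ y).2.trans_eq List.length_replicate
      simp [mat, inst, p, q]
    rw [a]
    rcases x with x | x <;> rcases y with y | y <;> simp only [ent, e1, e2, if_true, if_false, FM, fm] <;> push_cast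
    · simp [Fin.ext_iff]
    all_goals rfl
  have key : ∀ B : Matrix _ _ ℝ, ∑ i, ∑ j, φ (mat (inst M N S W R ε) i j) (B i j) =
      ∑ x, ∑ y, φ (FM M N S W R x y) (B (e _ x) (e _ y)) := fun B => ((e _).sum_comp _).symm.trans
    (sum_congr rfl fun x _ => ((e 2).sum_comp _).symm.trans (sum_congr rfl fun y _ => congrArg (φ · _) (e3 x y)))
  rw [Fintype.card_fin]
  exact ⟨fun ⟨B, r, h⟩ => ⟨B.submatrix (e _) (e _), (Matrix.rank_submatrix _ _ _).trans_le r, (key B).subst h⟩,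
    fun ⟨B, r, h⟩ => ⟨B.submatrix (e _).symm (e _).symm, (Matrix.rank_submatrix _ _ _).trans_le r,
      (key _).symm.subst (by simpa using h)⟩⟩

theorem dot {M : ℕ} {e : Q4} (he : Q4.lt (M + 1) e) (t : ℝ) (V : ℕ → ℝ) :
    ∑ l : Fin (3 * M + 3), (if (l : ℕ) = 3 * e.2.1 + 1 then t else cr e l) * V l =
      t * V (3 * e.2.1 + 1) + V (3 * e.2.2.1) - V (3 * e.2.2.2) - V (3 * e.1 + 2) := by
  obtain ⟨a, b, c, d⟩ := he
  have k : ∀ l : ℕ, (if l = 3 * e.2.1 + 1 then t else cr e l) * V l = (if l = 3 * e.2.1 + 1 then t * V l else 0) +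
      (if l = 3 * e.2.2.1 then V l else 0) - (if l = 3 * e.2.2.2 then V l else 0) - if l = 3 * e.1 + 2 then V l else 0 :=
    fun l => by unfold cr; split_ifs <;> first | omega | simp
  rw [← sum_range fun l => (if l = 3 * e.2.1 + 1 then t else cr e l) * V l]
  simp only [k, sum_sub_distrib, sum_add_distrib, sum_ite_eq', mem_range]
  rw [if_pos (by omega), if_pos (by omega), if_pos (by omega), if_pos (by omega)]

def rows (M : ℕ) (E : List Q4) : List Q4 :=
  E ++ (List.range M).flatMap fun a => [(a, 0, M, a), (0, a, M, a)]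

theorem rows_lt {M E} (h0 : 0 < M) (hE : ∀ e ∈ E, Q4.lt M e) : ∀ e ∈ rows M E, Q4.lt (M + 1) e ∧ e.1 < M ∧ e.2.1 < M := by
  simp only [rows, List.forall_mem_append, List.forall_mem_flatMap, List.forall_mem_cons, List.mem_range, Q4.lt] at *
  exact ⟨fun e he => by have := hE e he; omega, fun a h => ⟨by omega, by omega, by simp⟩⟩

theorem getD_mem (R : List Q4) (i : Fin R.length) : R.getD i (0, 0, 0, 0) ∈ R := by simp

/-- solutions give factors -/
theorem sol {M : ℕ} {R : List Q4} (h0 : 0 < M) (hR : ∀ e ∈ R, Q4.lt (M + 1) e ∧ e.1 < M) {x : ℕ → ℝ} (x0 : x 0 = 1)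
    (xb : ∀ i, |x i| ≤ 1) {t : ℝ} (ht : |t| ≤ 1) : ∃ (u : Fin R.length → Fin (3 * M + 3) → ℝ) (v : Fin 2 → Fin (3 * M + 3) → ℝ),
      (∀ i l, if fr R i.1 l.1 then |u i l| ≤ 1 else u i l = cr (R.getD i (0, 0, 0, 0)) l) ∧
      (∀ j l, if fc M j.1 l.1 then |v j l| ≤ 1 else v j l = cc M j l) ∧ ∀ i e, R.getD i.1 (0, 0, 0, 0) = e →
        ∑ l, u i l * v 0 l = (if e.2.1 = M then t else x e.1 * x e.2.1) + (if e.2.2.1 = M then 0 else x e.2.2.1) -
          (if e.2.2.2 = M then 0 else x e.2.2.2) ∧ ∑ l, u i l * v 1 l = if e.2.1 = M then 98 * t - x e.1 else 0 := by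
  let V : ℕ → ℕ → ℝ := fun j l => if fc M j l then x (l / 3) else cc M j l
  refine ⟨fun i l => if fr R i l then if (R.getD i (0, 0, 0, 0)).2.1 = M then t else x (R.getD i (0, 0, 0, 0)).1
    else cr (R.getD i (0, 0, 0, 0)) l, fun j l => V j l, fun i l => ?_, fun j l => ?_, fun i e he => ?_⟩
  · dsimp only; split_ifs
    exacts [ht, xb _, rfl]
  · simp only [V]; split_ifs
    exacts [xb _, rfl]
  obtain ⟨p, q⟩ := hR e (he ▸ getD_mem R i)
  simp only [fr, he, dot p, Fin.val_zero, Fin.val_one]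
  obtain ⟨a, b, c, d⟩ := e
  simp only [Q4.lt] at p q ⊢
  have v1 : ∀ j l, fc M j l → V j l = x (l / 3) := fun j l h => if_pos h
  have v2 : ∀ j l, ¬fc M j l → V j l = cc M j l := fun j l h => if_neg h
  have a1 : ∀ b ≤ M, V 0 (3 * b + 1) = if b = M then 1 else x b := fun b hb => by
    by_cases c : b = 0 ∨ b = M
    · rw [v2 _ _ (by unfold fc; omega)]
      rcases c with rfl | rfl <;> simp [cc, x0]
    · rw [v1 _ _ (by unfold fc; omega), if_neg (by omega)]; congr 1; omega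
  have a2 : ∀ b ≤ M, V 0 (3 * b) = if b = M then 0 else x b := fun b hb => by
    by_cases c : b = 0 ∨ b = M
    · rw [v2 _ _ (by unfold fc; omega)]
      rcases c with rfl | rfl <;> simp [cc, x0, h0.ne, h0.ne']
    · rw [v1 _ _ (by unfold fc; omega), if_neg (by omega)]; congr 1; omega
  have a3 : V 0 (3 * a + 2) = 0 := by rw [v2 _ _ (by unfold fc; omega)]; simp [cc]
  have a4 : V 1 (3 * b + 1) = if b = M then 98 else 1 := by rw [v2 _ _ (by unfold fc; omega)]; simp [cc]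
  have a5 : ∀ b, V 1 (3 * b) = 0 := fun b => by
    rw [v2 _ _ (by unfold fc; omega)]
    simp [cc, show 3 * b ≠ 3 * M + 1 by omega, show 3 * b ≠ 2 by omega]
  have a6 : V 1 (3 * a + 2) = x a := by
    by_cases c : a = 0
    · rw [v2 _ _ (by unfold fc; omega)]
      simp [cc, x0, c, show 2 ≠ 3 * M + 1 by omega]
    · rw [v1 _ _ (by unfold fc; omega)]; congr 1; omega
  rw [a1 b (by omega), a2 c (by omega), a2 d (by omega), a3, a4, a5, a5, a6]
  constructor <;> split_ifs <;> ring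

/-- factors give approximate solutions -/
theorem uns {M : ℕ} {R : List Q4} (h0 : 0 < M) (hR : ∀ e ∈ R, Q4.lt (M + 1) e)
    {u : Fin R.length → Fin (3 * M + 3) → ℝ} {v : Fin 2 → Fin (3 * M + 3) → ℝ}
    (hu : ∀ i l, ¬fr R i.1 l.1 → u i l = cr (R.getD i (0, 0, 0, 0)) l) (hv : ∀ j l, ¬fc M j.1 l.1 → v j l = cc M j l) :
    ∃ X Y Z : ℕ → ℝ, X 0 = 1 ∧ Y 0 = 1 ∧ Z 0 = 1 ∧ X M = 0 ∧ Y M = 1 ∧
      (∀ a < M, a ≠ 0 → ∃ l l' : Fin (3 * M + 3), fc M 0 l.1 ∧ fc M 0 l'.1 ∧ X a = v 0 l ∧ Y a = v 0 l') ∧ ∀ e ∈ R, ∃ (i : Fin R.length) (t : ℝ),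
        R.getD i.1 (0, 0, 0, 0) = e ∧ ∑ l, u i l * v 0 l = t * Y e.2.1 + X e.2.2.1 - X e.2.2.2 ∧
        ∑ l, u i l * v 1 l = t * (if e.2.1 = M then 98 else 1) - Z e.1 := by
  let V : Fin 2 → ℕ → ℝ := fun j l => if h : l < 3 * M + 3 then v j ⟨l, h⟩ else 0
  have v1 : ∀ j (l : Fin (3 * M + 3)), v j l = V j l := fun j l => by simp [V]
  have v2 : ∀ (j : Fin 2), ∀ l < 3 * M + 3, ¬fc M j l → V j l = cc M j l := fun j l a b => (v1 j ⟨l, a⟩).symm.trans (hv _ _ b)
  refine ⟨fun a => V 0 (3 * a), fun a => V 0 (3 * a + 1), fun a => V 1 (3 * a + 2), ?_, ?_, ?_, ?_, ?_, fun a p q =>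
    ⟨⟨3 * a, by omega⟩, ⟨3 * a + 1, by omega⟩, by unfold fc; dsimp only; omega, by unfold fc; dsimp only; omega, (v1 0 ⟨_, _⟩).symm,
      (v1 0 ⟨_, _⟩).symm⟩, fun e he => ?_⟩
  iterate 5
    simp only
    rw [v2 _ _ (by omega) (by unfold fc; omega)]
    simp [cc, h0.ne']
  obtain ⟨i, hi, rfl⟩ := List.getElem_of_mem he
  have p := hR _ he
  have q : R.getD i (0, 0, 0, 0) = R[i] := by simp [hi]
  obtain ⟨a, b, c, d⟩ := id p
  have k : ∀ l, u ⟨i, hi⟩ l = if (l : ℕ) = 3 * R[i].2.1 + 1 then u ⟨i, hi⟩ ⟨3 * R[i].2.1 + 1, by omega⟩ else cr R[i] l :=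
    fun l => by
      split_ifs with c
      · congr 1; exact Fin.ext c
      · rw [hu _ _ (by rw [fr, q]; exact c), q]
  refine ⟨⟨i, hi⟩, u ⟨i, hi⟩ ⟨3 * R[i].2.1 + 1, by omega⟩, q, ?_, ?_⟩ <;>
    rw [sum_congr rfl fun l _ => by rw [k, v1], dot p]
  · rw [v2 0 (3 * R[i].1 + 2) (by omega) (by unfold fc; omega)]
    simp [cc]
  · rw [v2 1 (3 * R[i].2.1 + 1) (by omega) (by unfold fc; omega), v2 1 (3 * R[i].2.2.1) (by omega) (by unfold fc; omega),
      v2 1 (3 * R[i].2.2.2) (by omega) (by unfold fc; omega)]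
    have : ∀ c, 3 * c ≠ 3 * M + 1 ∧ 3 * c ≠ 2 := fun c => by omega
    simp [cc, this]

open Classical in
/-- approximation in the number of changed entries -/
def L0 (a : Inst) : Prop :=
  ∃ B : Matrix _ _ ℝ, B.rank ≤ a.2.2.2.1 ∧ ((∑ i, ∑ j, if mat a i j = B i j then 0 else 1 : ℕ) : ℚ) < a.2.2.2.2

/-- approximation in the sum of absolute values -/
def L1 (a : Inst) : Prop := ∃ B : Matrix _ _ ℝ, B.rank ≤ a.2.2.2.1 ∧ ∑ i, ∑ j, |mat a i j - B i j| < a.2.2.2.2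

theorem pt_inst : PT fun a : (List Unit × List Unit × List Unit) × ℤ × List Q4 × ℤ =>
    inst a.1.1.length a.1.2.1.length a.1.2.2.length a.2.1 a.2.2.1 a.2.2.2 := by
  have c : ∀ {α : Type} [Enc α] {f : α → ℤ}, PT f → PT fun a => (f a : ℚ) := fun {_} _ {f} hf =>
    (show PT fun a => (f a, (1 : ℕ)) by fun_prop).cast fun _ => rfl
  have h : PT fun a : (ℕ × ℕ × ℕ) × ℤ × List Q4 × ℕ × ℕ => ent a.1.1 a.1.2.1 a.1.2.2 a.2.1 a.2.2.1 a.2.2.2.1 a.2.2.2.2 := by
    unfold ent cr cc aa fr fc; fun_prop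
  refine PT.pair (by fun_prop) (PT.pair (by fun_prop) (PT.pair (PT.map (PT.map (c ?_) (by fun_prop)) (by fun_prop))
    (PT.pair (by fun_prop) (c (by fun_prop)))))
  exact (h.comp (g := fun p : (((List Unit × List Unit × List Unit) × ℤ × List Q4 × ℤ) × ℕ) × ℕ =>
    ((p.1.1.1.1.length, p.1.1.1.2.1.length, p.1.1.1.2.2.length), p.1.1.2.1, p.1.1.2.2.1, p.1.2, p.2)) (by fun_prop) :)

theorem pt_nF : PT fun a : List Unit × List Q4 => nF a.1.length a.2 := by unfold nF fr fc; fun_prop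

theorem pt_rows : PT fun a : List Unit × List Q4 => (a.1, rows a.1.length a.2) := by unfold rows; fun_prop

def f0 (a : List Unit × List Q4) : Inst :=
  inst a.1.length (2 * ((a.2.length + 2) * (3 * a.1.length + 3) * ((a.2.length + 2) * (3 * a.1.length + 3) + 1)) +
    ((a.2.length + 2) * (3 * a.1.length + 3) + 1)) ((a.2.length + 2) * (3 * a.1.length + 3) + 1) 1 a.2
    ((nF a.1.length a.2 * ((2 * ((a.2.length + 2) * (3 * a.1.length + 3) * ((a.2.length + 2) * (3 * a.1.length + 3) + 1)) +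
    ((a.2.length + 2) * (3 * a.1.length + 3) + 1)) * ((a.2.length + 2) * (3 * a.1.length + 3) + 1)) + 1 : ℕ) : ℤ)

theorem pt_f0 : PT f0 := by
  have := pt_nF
  exact ((pt_inst.comp (g := fun a : List Unit × List Q4 => ((a.1, List.replicate (2 * ((a.2.length + 2) *
    (3 * a.1.length + 3) * ((a.2.length + 2) * (3 * a.1.length + 3) + 1)) + ((a.2.length + 2) * (3 * a.1.length + 3) + 1)) (),
    List.replicate ((a.2.length + 2) * (3 * a.1.length + 3) + 1) ()), 1, a.2, ((nF a.1.length a.2 * ((2 * ((a.2.length + 2) *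
      (3 * a.1.length + 3) * ((a.2.length + 2) * (3 * a.1.length + 3) + 1)) + ((a.2.length + 2) * (3 * a.1.length + 3) + 1)) *
      ((a.2.length + 2) * (3 * a.1.length + 3) + 1)) + 1 : ℕ) : ℤ))) (by fun_prop) :)).congr fun a => by
    simp only [List.length_replicate, f0]

def f1 (a : List Unit × List Q4) : Inst :=
  inst a.1.length 2 1 ((8 * nF a.1.length a.2 + 198 * a.2.length + 400 : ℕ) : ℤ) a.2
    (2 * ((8 * nF a.1.length a.2 + 198 * a.2.length + 400 : ℕ) : ℤ) * nF a.1.length a.2 + 1)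

theorem pt_f1 : PT f1 := by
  have := pt_nF
  exact (pt_inst.comp (g := fun a : List Unit × List Q4 => ((a.1, [(), ()], [()]),
    ((8 * nF a.1.length a.2 + 198 * a.2.length + 400 : ℕ) : ℤ), a.2,
    2 * ((8 * nF a.1.length a.2 + 198 * a.2.length + 400 : ℕ) : ℤ) * nF a.1.length a.2 + 1)) (by fun_prop) :)

end Pool.Agent.H.MP_d82c50_lc
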