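import Pool.Agent.H.MP_d82c50_lc.D

/-! The two reductions. -/

namespace Pool.Agent.H.MP_d82c50_lc

open Pool.Agent.Lib.CX Pool.Agent.Lib.ER Pool.Agent.Lib.SG Finset

set_option synthInstance.maxSize 4000

open Classical in
theorem hard0 : Red ETR L0 := by
  refine etr_of_bq (fun a => f0 (a.1, rows a.1.length a.2)) (pt_f0.comp pt_rows) fun M E h0 hE => ?_
  have hR := rows_lt h0 hE
  have hF := nF_le M.length (rows M.length E)
  simp only [f0]
  generalize ((rows M.length E).length + 2) * (3 * M.length + 3) = G at *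
  obtain ⟨N, hN⟩ : ∃ N, N = 2 * (G * (G + 1)) + (G + 1) := ⟨_, rfl⟩
  rw [← hN]
  generalize M.length = M at *
  have := tr (fun x y => if x = y then 0 else 1) (· ≤ nF M (rows M E) * (N * (G + 1))) M N (G + 1) 1 (rows M E)
    ((nF M (rows M E) * (N * (G + 1)) + 1 : ℕ) : ℤ)
  have e : L0 (inst M N (G + 1) 1 (rows M E) ((nF M (rows M E) * (N * (G + 1)) + 1 : ℕ) : ℤ)) ↔ _ :=
    Iff.trans (exists_congr fun B => and_congr_right' (by
      show _ < (((_ : ℕ) : ℤ) : ℚ) ↔ _
      rw [Int.cast_natCast, Nat.cast_lt, Nat.lt_succ_iff])) this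
  rw [e, nF_eq]
  rw [nF_eq] at hF
  simp only [FM, Int.cast_one]
  refine ⟨fun ⟨x, x0, xb, hx⟩ => ?_, fun ⟨B, r, h⟩ => ?_⟩
  · obtain ⟨u, v, hu, hv, h⟩ := sol h0 (fun e he => ⟨(hR e he).1, (hR e he).2.1⟩) x0 xb (t := 0) (by simp)
    refine (yes0 (u := u) (v := v) ?_ ?_ fun i j => ?_).imp fun B h => ⟨h.1, h.2.trans_eq (by rw [Fintype.card_fin])⟩
    · exact fun i l q => (if_neg q).mp (hu i l)
    · exact fun i l q => (if_neg q).mp (hv i l)
    have p := getD_mem _ i
    obtain ⟨a, b⟩ := h i _ rfl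
    generalize (rows M E).getD i (0, 0, 0, 0) = e at *
    have q := (hR e p).2.2.ne
    fin_cases j
    · simp only [rows, List.mem_append, List.mem_flatMap, List.mem_cons, List.mem_range, List.not_mem_nil, or_false] at p
      simp only [Fin.zero_eta, a, aa, q, if_false, and_false, Int.cast_zero]
      rcases p with p | ⟨c, p, rfl | rfl⟩
      · have := hx e p
        obtain ⟨-, -, c, d⟩ := hE e p
        rw [if_neg c.ne, if_neg d.ne]
        exact sub_eq_zero.2 this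
      all_goals simp [p.ne, x0]
    · simp [b, aa, q]
  · obtain ⟨u, v, hu, hv, h⟩ := no0 r (by rw [Fintype.card_fin]; omega) (by rw [Fintype.card_fin]; nlinarith)
      (Fin.castLE_injective (by omega : G + 1 ≤ N)) (h.trans_eq (by rw [Fintype.card_fin]))
    obtain ⟨X, Y, Z, x0, y0, z0, x1, -, -, k⟩ := uns h0 (fun e he => (hR e he).1) hu hv
    have k' : ∀ e ∈ rows M E, Z e.1 * Y e.2.1 + X e.2.2.1 = X e.2.2.2 := fun e he => by
      obtain ⟨i, t, p, a, b⟩ := k e he
      have q := (hR e he).2.2.ne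
      simp only [h, p, aa, q, and_false, if_false, Int.cast_zero, mul_one] at a b
      rw [← sub_eq_zero.1 b.symm]
      linarith
    simp only [rows, List.forall_mem_append, List.forall_mem_flatMap, List.forall_mem_cons, List.mem_range, y0, z0, x1,
      mul_one, one_mul, add_zero] at k'
    refine ⟨X, by simp [x0], fun e he => ?_⟩
    obtain ⟨a, b, -⟩ := hE e he
    rw [Q4.ok, ← k'.1 e he, (k'.2 _ a).1, (k'.2 _ b).2.1]

theorem hard1 : Red ETR L1 := by
  refine etr_of_aq (fun a => f1 (a.1, (a.1.length - 1, a.1.length, a.1.length, a.1.length) :: rows a.1.length a.2))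
    (pt_f1.comp (by unfold rows; fun_prop)) fun M E h0 hE => ?_
  have hR := rows_lt h0 hE
  simp only [f1]
  generalize M.length = M at *
  obtain ⟨R, eR⟩ : ∃ R, R = (M - 1, M, M, M) :: rows M E := ⟨_, rfl⟩
  have hR' : ∀ e ∈ R, Q4.lt (M + 1) e ∧ e.1 < M := by
    simp only [eR, List.forall_mem_cons]
    exact ⟨by simp only [Q4.lt]; omega, fun e he => ⟨(hR e he).1, (hR e he).2.1⟩⟩
  rw [← eR]
  obtain ⟨W, hW⟩ : ∃ W : ℕ, W = 8 * nF M R + 198 * R.length + 400 := ⟨_, rfl⟩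
  rw [← hW]
  have := tr (fun x y => |x - y|) (· < 2 * (W : ℝ) * nF M R + 1) M 2 1 W R (2 * W * nF M R + 1)
  have e : L1 (inst M 2 1 W R (2 * W * nF M R + 1)) ↔ _ :=
    Iff.trans (exists_congr fun B => and_congr_right' (by
      show _ < (((_ : ℤ) : ℚ) : ℝ) ↔ _
      push_cast; rfl)) this
  rw [e, nF_eq]
  rw [nF_eq] at hW
  simp only [FM, Int.cast_natCast]
  have R0 : 0 < R.length := by simp [eR]
  have R1 : R.getD 0 (0, 0, 0, 0) = (M - 1, M, M, M) := by simp [eR]
  have R2 : ∀ i : Fin R.length, i ≠ ⟨0, R0⟩ → R.getD i (0, 0, 0, 0) ∈ rows M E := by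
    subst eR
    rintro ⟨_ | i, hi⟩ h
    · exact absurd rfl h
    · simp only [List.length_cons, Nat.add_lt_add_iff_right] at hi
      simp [hi]
  refine ⟨fun ⟨x, x0, xb, xw, hx⟩ => ?_, fun ⟨B, r, h⟩ => ?_⟩
  · have xb' := (abs_le.1 (xb (M - 1))).2
    obtain ⟨u, v, hu, hv, h⟩ := sol h0 hR' x0 xb (t := x (M - 1) / 98) (by rw [abs_of_pos (by positivity)]; linarith)
    refine (yes1 (u := u) (v := v) W.cast_nonneg hu hv).imp fun B c => ⟨c.1, c.2.trans_lt (add_lt_add_right ?_ _)⟩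
    rw [sum_eq_single ⟨0, R0⟩ (fun i _ hi => ?_) (by simp)]
    · obtain ⟨a, b⟩ := h ⟨0, R0⟩ _ R1
      simp only [Fin.sum_univ_two, a, b, R1, aa, if_true, Fin.val_zero, Fin.val_one, and_true, one_ne_zero, if_false]
      push_cast
      rw [abs_of_nonpos (by linarith), abs_of_nonneg (by linarith)]
      linarith
    have p := R2 i hi
    obtain ⟨a, b⟩ := h i _ rfl
    generalize R.getD i (0, 0, 0, 0) = e at *
    have q := (hR e p).2.2.ne
    simp only [rows, List.mem_append, List.mem_flatMap, List.mem_cons, List.mem_range, List.not_mem_nil, or_false] at p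
    simp only [Fin.sum_univ_two, a, b, aa, q, if_false, and_false, Int.cast_zero, sub_zero, abs_zero, add_zero, abs_eq_zero]
    rcases p with p | ⟨c, p, rfl | rfl⟩
    · have := hx e p
      obtain ⟨-, -, c, d⟩ := hE e p
      rw [if_neg c.ne, if_neg d.ne]
      exact sub_eq_zero.2 this
    all_goals simp [p.ne, x0]
  obtain ⟨u, v, hu, hv, h⟩ := no1 r (D := 98) (by norm_num) (fun i l => by unfold cr; split_ifs <;> norm_num)
    (fun i l => by unfold cc; split_ifs <;> norm_num) le_rfl (by rw [hW]; push_cast; linarith [R.length.cast_nonneg (α := ℝ)])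
    (by
      rw [hW, Fintype.card_fin, Fintype.card_fin, Nat.cast_add, Nat.cast_add, Nat.cast_mul, Nat.cast_mul]
      rw [← nF_eq]
      push_cast; linarith [(nF M R).cast_nonneg (α := ℝ)]) h
  obtain ⟨X, Y, Z, x0, y0, z0, x1, y1, fb, k⟩ := uns h0 (fun e he => (hR' e he).1) (fun i l q => (if_neg q).mp (hu i l))
    fun i l q => (if_neg q).mp (hv i l)
  have xb : ∀ a < M, |X a| ≤ 1 ∧ |Y a| ≤ 1 := fun a ha => by
    by_cases c : a = 0
    · simp [c, x0, y0]
    · obtain ⟨l, l', p, q, r, s⟩ := fb a ha c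
      exact ⟨r ▸ (if_pos p).mp (hv 0 l), s ▸ (if_pos q).mp (hv 0 l')⟩
  obtain ⟨g, hg⟩ : ∃ g : Fin R.length → ℝ, ∀ i, g i = ∑ j : Fin 2, |∑ l, u i l * v j l - aa M (R.getD i (0, 0, 0, 0)) j| :=
    ⟨_, fun _ => rfl⟩
  simp only [← hg] at h
  have g0 : ∀ i, 0 ≤ g i := fun i => hg i ▸ sum_nonneg fun _ _ => abs_nonneg _
  obtain ⟨i, t, p, a, b⟩ := k (M - 1, M, M, M) (by simp [eR])
  rw [← add_sum_erase _ _ (mem_univ i)] at h
  have c := hg i
  simp only [Fin.sum_univ_two, a, b, p, aa, y1, if_true, Fin.val_zero, Fin.val_one, and_true, one_ne_zero, if_false] at c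
  push_cast at c
  obtain ⟨η, hη⟩ : ∃ η, η = ∑ j ∈ univ.erase i, g j := ⟨_, rfl⟩
  have k' : ∀ e ∈ rows M E, |Z e.1 * Y e.2.1 + X e.2.2.1 - X e.2.2.2| ≤ η := fun e he => by
    obtain ⟨j, s, p', a, b⟩ := k e (by simp [eR, he])
    have q := (hR e he).2.2
    have d := hg j
    simp only [Fin.sum_univ_two, a, b, p', aa, q.ne, and_false, if_false, Int.cast_zero, mul_one, sub_zero] at d
    refine le_trans ?_ (hη ▸ single_le_sum (fun j _ => g0 j) (mem_erase.2 ⟨fun w => q.ne ?_, mem_univ j⟩))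
    · rw [d, show Z e.1 * Y e.2.1 + X e.2.2.1 - X e.2.2.2 = (s * Y e.2.1 + X e.2.2.1 - X e.2.2.2) - (s - Z e.1) * Y e.2.1 by ring]
      refine (abs_sub _ _).trans (add_le_add_right ?_ _)
      rw [abs_mul]
      exact mul_le_of_le_one_right (abs_nonneg _) (xb _ q).2
    · rw [← p', w, p]
  rw [← hη, c] at h
  simp only [rows, List.forall_mem_append, List.forall_mem_flatMap, List.forall_mem_cons, List.mem_range, y0, z0, x1,
    mul_one, one_mul, add_zero] at k'
  have w := (abs_le.1 (k'.2 (M - 1) (by omega)).1).2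
  have := neg_abs_le (t * 1 + X M - X M - 1)
  have := le_abs_self (t * 98 - Z (M - 1) - 0)
  have := abs_nonneg (t * 98 - Z (M - 1) - 0)
  refine ⟨X, x0, fun a ha => (xb a ha).1, fun e he => ?_⟩
  obtain ⟨a, b, -⟩ := hE e he
  rw [Q4.er, show X e.1 * X e.2.1 + X e.2.2.1 - X e.2.2.2 = (Z e.1 * Y e.2.1 + X e.2.2.1 - X e.2.2.2) -
    (Z e.1 - X e.1) * Y e.2.1 - X e.1 * (Y e.2.1 - X e.2.1) by ring]
  have a1 := mul_le_mul (k'.2 _ a).1 (xb _ b).2 (abs_nonneg _) ((abs_nonneg _).trans (k'.2 _ a).1)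
  have a2 := mul_le_mul (xb _ a).1 (k'.2 _ b).2.1 (abs_nonneg _) zero_le_one
  refine (abs_sub _ _).trans ((add_le_add_left (abs_sub _ _) _).trans ?_)
  rw [abs_mul, abs_mul]
  linarith [k'.1 e he, (abs_nonneg _).trans (k'.1 e he)]

end Pool.Agent.H.MP_d82c50_lc
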